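import Mathlib
import Pool.Agent.Work.MP_0fef71_al.Final

set_option autoImplicit false

namespace Pool.Agent.Results.MP_0fef71_al.NoGap

open Filter Pool.Agent.Work.MP_0fef71_al

/-- The number of subgroups of `Γ` of (finite) index at most `n`. In Mathlib `H.index = 0`
means that `H` has infinite index. -/
noncomputable def sigma (Γ : Type) [Group Γ] (n : ℕ) : ℕ :=
  Nat.card {H : Subgroup Γ // H.index ≠ 0 ∧ H.index ≤ n}

/-- Polynomial subgroup growth. -/
def IsPSG (Γ : Type) [Group Γ] : Prop :=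
  ∃ c : ℝ, ∀ n : ℕ, 1 ≤ n → (sigma Γ n : ℝ) ≤ (n : ℝ) ^ c

theorem residuallyFinite (P : ℕ → ℕ) (hP : ∀ i, Fact (P i).Prime) :
    Group.ResiduallyFinite (GG P) := by
  rw [Group.residuallyFinite_iff_exists_finiteIndex]
  intro g hg
  have h1 : ∃ i, g.1 i ≠ 1 := by
    by_contra hcon
    push Not at hcon
    exact hg (Subtype.ext (funext hcon))
  obtain ⟨i, hi⟩ := h1
  refine ⟨(pr P i).ker, inferInstance, fun h => hi h⟩

theorem core (g : ℕ → ℝ) (hg : ∀ n, 0 < g n)
    (hg' : Tendsto (fun n : ℕ => Real.log (g n) / Real.log n) atTop atTop) :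
    ∃ (Γ : Type) (_ : Group Γ), Group.FG Γ ∧ Group.ResiduallyFinite Γ ∧
      (∀ n : ℕ, Finite {H : Subgroup Γ // H.index ≠ 0 ∧ H.index ≤ n}) ∧
      ¬ IsPSG Γ ∧ ∀ᶠ n : ℕ in atTop, (sigma Γ n : ℝ) < g n := by
  obtain ⟨P, hP, hfin, hlow, hup⟩ := main g hg hg'
  refine ⟨GG P, inferInstance, GG_fg P, residuallyFinite P hP,
    fun n => (hfin n).to_subtype, ?_, hup⟩
  rintro ⟨c, hc⟩
  obtain ⟨n, hn, hn1⟩ := ((hlow c).and_eventually (eventually_ge_atTop 1)).exists
  exact absurd (hc n hn1) (not_le.2 hn)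

theorem q2_compare (c : ℝ) (hc : 0 < c) :
    ∀ᶠ n : ℕ in atTop, Real.exp (Real.sqrt (Real.log n) * Real.log n) ≤
      (n : ℝ) ^ (c * Real.log n / (Real.log (Real.log n)) ^ 2) := by
  have h1 : ∀ᶠ x : ℝ in atTop, (Real.log x) ^ 2 ≤ c * Real.sqrt x := by
    have h := (isLittleO_log_rpow_atTop (r := 1 / 4) (by norm_num)).pow (n := 2) (by norm_num)
    have h2 := h.bound hc
    filter_upwards [h2, eventually_ge_atTop 1] with x hx hx1
    have e : (x ^ (1 / 4 : ℝ)) ^ 2 = Real.sqrt x := by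
      rw [← Real.rpow_natCast, ← Real.rpow_mul (by linarith), Real.sqrt_eq_rpow]
      norm_num
    rw [e, Real.norm_of_nonneg (by positivity), Real.norm_of_nonneg (Real.sqrt_nonneg _)] at hx
    exact hx
  have hlog : Tendsto (fun n : ℕ => Real.log (n : ℝ)) atTop atTop :=
    Real.tendsto_log_atTop.comp tendsto_natCast_atTop_atTop
  filter_upwards [hlog.eventually h1, hlog.eventually (eventually_gt_atTop 1),
    eventually_ge_atTop 2] with n hn hn1 hn2
  have hnpos : (0 : ℝ) < n := by exact_mod_cast (by omega : 0 < n)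
  set L := Real.log (n : ℝ) with hL
  have hLL : 0 < Real.log L := Real.log_pos hn1
  rw [Real.rpow_def_of_pos hnpos, ← hL, Real.exp_le_exp]
  have hL0 : 0 < L := by linarith
  have h3 : Real.sqrt L ≤ c * L / (Real.log L) ^ 2 := by
    rw [le_div_iff₀ (by positivity)]
    calc Real.sqrt L * (Real.log L) ^ 2 ≤ Real.sqrt L * (c * Real.sqrt L) :=
          mul_le_mul_of_nonneg_left hn (Real.sqrt_nonneg _)
      _ = c * (Real.sqrt L * Real.sqrt L) := by ring
      _ = c * L := by rw [Real.mul_self_sqrt hL0.le]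
  calc Real.sqrt L * L ≤ (c * L / (Real.log L) ^ 2) * L :=
        mul_le_mul_of_nonneg_right h3 hL0.le
    _ = L * (c * L / (Real.log L) ^ 2) := mul_comm _ _

/-- **No gap in subgroup growth.** -/
theorem result :
    (∀ g : ℕ → ℝ, (∀ n, 0 < g n) →
      Tendsto (fun n : ℕ => Real.log (g n) / Real.log n) atTop atTop →
      ∃ (Γ : Type) (_ : Group Γ), Group.FG Γ ∧ Group.ResiduallyFinite Γ ∧
        (∀ n : ℕ, Finite {H : Subgroup Γ // H.index ≠ 0 ∧ H.index ≤ n}) ∧
        ¬ IsPSG Γ ∧ ∀ᶠ n : ℕ in atTop, (sigma Γ n : ℝ) < g n) ∧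
    (∃ (Γ : Type) (_ : Group Γ), Group.FG Γ ∧ Group.ResiduallyFinite Γ ∧
        (∀ n : ℕ, Finite {H : Subgroup Γ // H.index ≠ 0 ∧ H.index ≤ n}) ∧
        ¬ IsPSG Γ ∧ ∀ c : ℝ, 0 < c → ∀ᶠ n : ℕ in atTop,
          (sigma Γ n : ℝ) < (n : ℝ) ^ (c * Real.log n / (Real.log (Real.log n)) ^ 2)) := by
  refine ⟨fun g hg hg' => core g hg hg', ?_⟩
  obtain ⟨Γ, hΓ, h1, h2, h3, h4, h5⟩ := core
    (fun n : ℕ => Real.exp (Real.sqrt (Real.log n) * Real.log n)) (fun n => Real.exp_pos _) (by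
      have hlog : Tendsto (fun n : ℕ => Real.log (n : ℝ)) atTop atTop :=
        Real.tendsto_log_atTop.comp tendsto_natCast_atTop_atTop
      have hs : Tendsto (fun n : ℕ => Real.sqrt (Real.log (n : ℝ))) atTop atTop :=
        Real.tendsto_sqrt_atTop.comp hlog
      refine hs.congr' ?_
      filter_upwards [hlog.eventually (eventually_gt_atTop 0)] with n hn
      rw [Real.log_exp, mul_div_assoc, div_self hn.ne', mul_one])
  refine ⟨Γ, hΓ, h1, h2, h3, h4, fun c hc => ?_⟩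
  filter_upwards [h5, q2_compare c hc] with n h6 h7
  exact lt_of_lt_of_le h6 h7

end Pool.Agent.Results.MP_0fef71_al.NoGap
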